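import Pool.Agent.H7.JamesIso.Proof2

set_option autoImplicit false

namespace Pool.Agent.Results.MP_8db9c5_an.Nontrivial

open Pool.Agent.H7.JamesIso

/-- There is a reflexive real Banach space with an unconditional basis whose Jamesification has a
surjective linear isometry different from `Id` and `-Id`. -/
theorem result :
    ∃ (X : Type) (_ : NormedAddCommGroup X) (_ : NormedSpace ℝ X) (x : ℕ → X),
      IsCounterexample X x :=
  ⟨X, inferInstance, inferInstance, bx, main⟩

end Pool.Agent.Results.MP_8db9c5_an.Nontrivial
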